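import Pool.Agent.HEC.Stmts

/-!
# Squad HEC, row NST: four nested maximum cuts
-/

set_option autoImplicit false

namespace Pool.Agent.HEC.H32

theorem nst (h : MctStmt) : NstStmt := by
  intro V _ G
  obtain ⟨t1, h1⟩ := h V G
  obtain ⟨t2, h2⟩ := h V (sam G t1)
  obtain ⟨t3, h3⟩ := h V (sam (sam G t1) t2)
  obtain ⟨t4, h4⟩ := h V (sam (sam (sam G t1) t2) t3)
  exact ⟨⟨t1, t2, t3, t4, h1, h2, h3, h4⟩⟩

end Pool.Agent.HEC.H32
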